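import Pool.Agent.helper96.S5.SpecV

/-! # Row s5:EPB (MP_0b485e_lc): from the types to the formula -/

set_option autoImplicit false

namespace S5

open PF

noncomputable section

open Classical

theorem EPB_bk1 (X : Cx) {k j x : ℕ} (h : x ∈ X.bk k j) : x.unpair.1 = k := by
  obtain ⟨t, rfl, -⟩ := h
  rw [Nat.unpair_pair]

theorem EPB_row (hJFN : JFN_stmt) (hJSK : JSK_stmt) (hKDD : KDD_stmt) (hBIT : BIT_stmt)
    (hTYL : TYL_stmt) (hPXL : PXL_stmt) (hRPX : RPX_stmt) : EPB_stmt := by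
  intro X p hX hp x x' y y' i0 j0 q hD hD' hr hr' hT Rc hJ
  have hCi : ∀ k, X.B.C i0 k := (hRPX X p hp x x').2 i0 hr
  have hCj : ∀ k, X.B.C j0 k := (hRPX X p hp y y').2 j0 hr'
  obtain ⟨hpi, s1, hs1⟩ := hPXL X hX i0 hCi
  obtain ⟨hpj, s2, hs2⟩ := hPXL X hX j0 hCj
  obtain ⟨hmono, hlsN, -, hty2⟩ := hTYL X hX
  obtain ⟨R, rfl⟩ := mk_surj Rc
  obtain ⟨K, hK⟩ := hJFN X p hX hp R hJ
  obtain ⟨s, hs, hty⟩ := hty2 _ hT (max (max s1 s2) K)
  have hs1' : s1 ≤ s := (le_max_left _ _).trans ((le_max_left _ _).trans hs)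
  have hs2' : s2 ≤ s := (le_max_right _ _).trans ((le_max_left _ _).trans hs)
  have hKs : K ≤ s := (le_max_right _ _).trans hs
  have hkN := hlsN s
  have hv1 : ∀ l < X.m, (X.B.lv (X.ls s) l i0 1 ∨ X.B.lv (X.ls s) l i0 2) ∧
      (l < X.pix i0 → X.B.lv (X.ls s) l i0 1) ∧
      (l = X.pix i0 → l + 1 < X.m → X.B.lv (X.ls s) l i0 2) := hs1 s hs1'
  have hv2 : ∀ l < X.m, (X.B.lv (X.ls s) l j0 1 ∨ X.B.lv (X.ls s) l j0 2) ∧
      (l < X.pix j0 → X.B.lv (X.ls s) l j0 1) ∧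
      (l = X.pix j0 → l + 1 < X.m → X.B.lv (X.ls s) l j0 2) := hs2 s hs2'
  have hsk : s ≤ X.ls s := hmono.le_apply
  generalize X.ls s = k at hty hkN hv1 hv2 hsk
  obtain ⟨hR', hJ'⟩ := hJSK X p hp {k} (Set.finite_singleton k) (fun k' hk' => by
    rw [Set.mem_singleton_iff.1 hk']
    exact hkN)
  refine ⟨_, hJ', ?_, ?_, ?_⟩
  · rw [mk_inf, mk_bot]
    refine Set.finite_empty.subset ?_
    rintro z ⟨hz1, hz2⟩
    have h1 : z.unpair.1 = k := hz2
    have h2 : z = Nat.pair k z.unpair.2 := by rw [← h1, Nat.pair_unpair]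
    rw [h2] at hz1
    exact hK k (hKs.trans hsk) hkN _ hz1
  · obtain ⟨h0, hp0⟩ := hp.p0
    rw [hp0, mk_le]
    intro hfin
    refine (hX.ce.image (f := fun z => Nat.pair k z) ?_) (hfin.subset ?_)
    · intro z _ z' _ h
      exact (Nat.pair_eq_pair.1 h).2
    · rintro _ ⟨z, hz, rfl⟩
      refine ⟨?_, ?_⟩
      · show (Nat.pair k z).unpair.1 ∈ ({k} : Set ℕ)
        rw [Nat.unpair_pair]
        rfl
      · rintro (h | h)
        · have h1 : (Nat.pair k z).unpair.2 ∈ X.E := h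
          rw [Nat.unpair_pair] at h1
          exact hz h1
        · have h1 : (Nat.pair k z).unpair.1 ∈ X.N := h
          rw [Nat.unpair_pair] at h1
          exact hkN h1
  · -- the general step
    have hstep : ∀ (c : ℕ) (w : CES), (∀ z ∈ w.1, z ∈ X.sC c ∧ z.unpair.1 = k) →
        (∃ n0, ∀ j, n0 ≤ (pcc j).1.length → (pcc j).2.2 = c → alT X.m (X.ty k) (pcc j).2.1 c →
          X.B.RS k (pcc j).1 (pcc j).2.1 → ((w.1 ∩ X.bk k j) \ X.sD).Finite) → Ks p (EStar.mk w) := by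
      intro c w hw1 hw2
      refine hKDD X p hX hp k c w ?_ hw2
      intro z hz
      obtain ⟨⟨k', j, hz1, hz2⟩, hz3⟩ := hw1 z hz
      have := EPB_bk1 X hz1
      rw [hz3] at this
      rw [← this] at hz1
      exact ⟨j, hz1, hz2⟩
    have hpair : ∀ (x x' : CES) (i0 : ℕ), X.rep x x' i0 → Dm p (EStar.mk x) (EStar.mk x') →
        ∀ l, (X.B.lv k l i0 2 → ∃ n0, ∀ j, n0 ≤ (pcc j).1.length → (pcc j).2.1 = l →
            X.B.RS k (pcc j).1 (pcc j).2.1 → ((x'.1 ∩ X.bk k j) \ X.sD).Finite) ∧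
          (X.B.lv k l i0 1 → ∃ n0, ∀ j, n0 ≤ (pcc j).1.length → (pcc j).2.1 = l →
            X.B.RS k (pcc j).1 (pcc j).2.1 → ((x.1 ∩ X.bk k j) \ X.sD).Finite) := by
      intro x x' i0 hr hD l
      have hfin := ((dm_iff hp x x').1 hD).1
      constructor
      · rintro ⟨n1, hn1⟩
        refine ⟨max n1 (i0 + 1), fun j hj hjl hRS => ?_⟩
        have h5 : i0 < (pcc j).1.length := (Nat.lt_succ_self i0).trans_le ((le_max_right _ _).trans hj)
        rw [hjl] at hRS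
        have h6 := (hBIT X hX x x' i0 hr k j h5).1 (hn1 _ hRS ((le_max_left _ _).trans hj))
        refine (h6.union hfin).subset ?_
        rintro z ⟨⟨hz1, hz2⟩, hz3⟩
        by_cases hzx : z ∈ x.1
        · exact Or.inr ⟨⟨hzx, hz1⟩, hz3⟩
        · exact Or.inl ⟨hz2, hzx⟩
      · rintro ⟨n1, hn1⟩
        refine ⟨max n1 (i0 + 1), fun j hj hjl hRS => ?_⟩
        have h5 : i0 < (pcc j).1.length := (Nat.lt_succ_self i0).trans_le ((le_max_right _ _).trans hj)
        rw [hjl] at hRS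
        have h6 := (hBIT X hX x x' i0 hr k j h5).2 (hn1 _ hRS ((le_max_left _ _).trans hj))
        refine (h6.union hfin).subset ?_
        rintro z ⟨⟨hz1, hz2⟩, hz3⟩
        by_cases hzx : z ∈ x'.1
        · exact Or.inr ⟨⟨hz1, hzx⟩, hz3⟩
        · exact Or.inl ⟨hz2, hzx⟩
    -- bounds which are uniform in the finitely many labels
    have hunif : ∀ (x x' : CES) (i0 : ℕ), X.rep x x' i0 → Dm p (EStar.mk x) (EStar.mk x') →
        X.pix i0 < X.m → (∀ l < X.m, (X.B.lv k l i0 1 ∨ X.B.lv k l i0 2) ∧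
          (l < X.pix i0 → X.B.lv k l i0 1) ∧ (l = X.pix i0 → l + 1 < X.m → X.B.lv k l i0 2)) →
        (X.pix i0 + 1 < X.m → ∃ n0, ∀ j, n0 ≤ (pcc j).1.length → (pcc j).2.1 = X.pix i0 →
            X.B.RS k (pcc j).1 (pcc j).2.1 → ((x'.1 ∩ X.bk k j) \ X.sD).Finite) ∧
        ∃ n0, ∀ j, n0 ≤ (pcc j).1.length → (pcc j).2.1 < X.pix i0 →
            X.B.RS k (pcc j).1 (pcc j).2.1 → ((x.1 ∩ X.bk k j) \ X.sD).Finite := by
      intro x x' i0 hr hD hpi hv
      refine ⟨fun h => (hpair x x' i0 hr hD _).1 ((hv _ hpi).2.2 rfl h), ?_⟩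
      have h1 : ∀ l : ℕ, ∃ n0, l < X.pix i0 → ∀ j, n0 ≤ (pcc j).1.length → (pcc j).2.1 = l →
            X.B.RS k (pcc j).1 (pcc j).2.1 → ((x.1 ∩ X.bk k j) \ X.sD).Finite := by
        intro l
        by_cases hl : l < X.pix i0
        · obtain ⟨n0, hn0⟩ := (hpair x x' i0 hr hD l).2 ((hv l (hl.trans hpi)).2.1 hl)
          exact ⟨n0, fun _ => hn0⟩
        · exact ⟨0, fun h => absurd h hl⟩
      choose n hn using h1
      refine ⟨(Finset.range (X.pix i0)).sup n, fun j hj hjl hRS => ?_⟩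
      refine hn (pcc j).2.1 hjl j (le_trans ?_ hj) rfl hRS
      exact Finset.le_sup (f := n) (Finset.mem_range.2 hjl)
    obtain ⟨hx1, hx2⟩ := hunif x x' i0 hr hD hpi hv1
    obtain ⟨hy1, hy2⟩ := hunif y y' j0 hr' hD' hpj hv2
    -- the sets of the form `u ∩ sC c ∩ R'`
    have hset : ∀ (u : CES) (c : ℕ), (∃ n0, ∀ j, n0 ≤ (pcc j).1.length →
          alT X.m (X.ty k) (pcc j).2.1 c →
          X.B.RS k (pcc j).1 (pcc j).2.1 → ((u.1 ∩ X.bk k j) \ X.sD).Finite) →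
        Ks p (EStar.mk u ⊓ p (5 + c) ⊓
          EStar.mk ⟨{x : ℕ | x.unpair.1 ∈ ({k} : Set ℕ)}, hR'⟩) := by
      rintro u c ⟨n0, hn0⟩
      obtain ⟨hc, hpc⟩ := hp.pc c
      rw [hpc, mk_inf, mk_inf]
      refine hstep c _ ?_ ⟨n0, fun j hj _ hal hRS => (hn0 j hj hal hRS).subset ?_⟩
      · rintro z ⟨⟨_, hz2⟩, hz3⟩
        exact ⟨hz2, hz3⟩
      · rintro z ⟨⟨⟨⟨hz1, _⟩, _⟩, hz2⟩, hz3⟩
        exact ⟨⟨hz1, hz2⟩, hz3⟩
    refine ⟨?_, ?_, ?_, ?_, ?_⟩
    · obtain ⟨hc, hpc⟩ := hp.pc (4 + q)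
      have e : 9 + q = 5 + (4 + q) := by omega
      rw [e, hpc, mk_inf]
      refine hstep (4 + q) _ ?_ ⟨0, fun j _ _ hal _ => ?_⟩
      · rintro z ⟨hz2, hz3⟩
        exact ⟨hz2, hz3⟩
      · exfalso
        rcases hal with ⟨h, _⟩ | ⟨h, _⟩ | ⟨h, _⟩ | ⟨h, _⟩ | ⟨_, _, h⟩
        · omega
        · omega
        · omega
        · omega
        · exact h _ hty rfl
    · -- colour 0
      by_cases hlt : X.pix i0 + 1 < X.m
      · obtain ⟨n0, hn0⟩ := hx1 hlt
        refine hset x' 0 ⟨n0, fun j hj hal hRS => hn0 j hj ?_ hRS⟩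
        rcases hal with ⟨_, _, a, ha, hl⟩ | ⟨h, _⟩ | ⟨h, _⟩ | ⟨h, _⟩ | ⟨h, _, _⟩
        · rw [hty] at ha
          rw [hl, ← Option.some.inj ha]
        · exact absurd h (by norm_num)
        · exact absurd h (by norm_num)
        · exact absurd h (by norm_num)
        · exact absurd h (by norm_num)
      · refine hset x' 0 ⟨0, fun j _ hal _ => ?_⟩
        exfalso
        rcases hal with ⟨_, hlm, a, ha, hl⟩ | ⟨h, _⟩ | ⟨h, _⟩ | ⟨h, _⟩ | ⟨h, _, _⟩
        · rw [hty] at ha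
          rw [hl, ← Option.some.inj ha] at hlm
          exact hlt hlm
        · exact absurd h (by norm_num)
        · exact absurd h (by norm_num)
        · exact absurd h (by norm_num)
        · exact absurd h (by norm_num)
    · -- colour 1
      obtain ⟨n0, hn0⟩ := hx2
      refine hset x 1 ⟨n0, fun j hj hal hRS => hn0 j hj ?_ hRS⟩
      rcases hal with ⟨h, _⟩ | ⟨_, a, ha, hl⟩ | ⟨h, _⟩ | ⟨h, _⟩ | ⟨h, _, _⟩
      · exact absurd h (by norm_num)
      · rw [hty] at ha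
        rw [← Option.some.inj ha] at hl
        exact hl
      · exact absurd h (by norm_num)
      · exact absurd h (by norm_num)
      · exact absurd h (by norm_num)
    · -- colour 2
      by_cases hlt : X.pix j0 + 1 < X.m
      · obtain ⟨n0, hn0⟩ := hy1 hlt
        refine hset y' 2 ⟨n0, fun j hj hal hRS => hn0 j hj ?_ hRS⟩
        rcases hal with ⟨h, _⟩ | ⟨h, _⟩ | ⟨_, _, a, ha, hl⟩ | ⟨h, _⟩ | ⟨h, _, _⟩
        · exact absurd h (by norm_num)
        · exact absurd h (by norm_num)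
        · rw [hty] at ha
          rw [hl, ← Option.some.inj ha]
        · exact absurd h (by norm_num)
        · exact absurd h (by norm_num)
      · refine hset y' 2 ⟨0, fun j _ hal _ => ?_⟩
        exfalso
        rcases hal with ⟨h, _⟩ | ⟨h, _⟩ | ⟨_, hlm, a, ha, hl⟩ | ⟨h, _⟩ | ⟨h, _, _⟩
        · exact absurd h (by norm_num)
        · exact absurd h (by norm_num)
        · rw [hty] at ha
          rw [hl, ← Option.some.inj ha] at hlm
          exact hlt hlm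
        · exact absurd h (by norm_num)
        · exact absurd h (by norm_num)
    · -- colour 3
      obtain ⟨n0, hn0⟩ := hy2
      refine hset y 3 ⟨n0, fun j hj hal hRS => hn0 j hj ?_ hRS⟩
      rcases hal with ⟨h, _⟩ | ⟨h, _⟩ | ⟨h, _⟩ | ⟨_, a, ha, hl⟩ | ⟨h, _, _⟩
      · exact absurd h (by norm_num)
      · exact absurd h (by norm_num)
      · exact absurd h (by norm_num)
      · rw [hty] at ha
        rw [← Option.some.inj ha] at hl
        exact hl
      · exact absurd h (by norm_num)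

end

end S5
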