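import Pool.Agent.helper96.S5.SpecV

/-! # Row s5:EPF (MP_0b485e_lc): from the formula to the types -/

set_option autoImplicit false

namespace S5

open PF

noncomputable section

open Classical

theorem EPF_pair_inj (k : ℕ) : Function.Injective fun z => Nat.pair k z := by
  intro z z' h
  exact (Nat.pair_eq_pair.1 h).2

/-- a class whose long right pieces are almost contained in a small set is not permitted -/
theorem EPF_aux (hLVL : LVL_stmt) (X : Cx) (p : ℕ → EStar) (hX : X.Ok) (hp : X.Par p) (k : ℕ)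
    (R' : CES) (n0 : ℕ)
    (hn0 : ∀ j, n0 ≤ (pcc j).1.length → X.B.RS k (pcc j).1 (pcc j).2.1 → X.bk k j ⊆ R'.1)
    (l c : ℕ) (hl : l < X.m) (hal : alT X.m (X.ty k) l c) (w : CES) (hw : Ks p (EStar.mk w))
    (hsub : ∃ n1, ∀ j, n1 ≤ (pcc j).1.length → (pcc j).2 = (l, c) → X.B.RS k (pcc j).1 l →
      X.bk k j ⊆ R'.1 → X.bk k j ⊆ X.sC c → (X.bk k j \ w.1).Finite) : False := by
  obtain ⟨n1, hn1⟩ := hsub
  refine hLVL X p hX hp k l c hl hal w ⟨max n0 n1, fun j hj hlc hRS => ?_⟩ hw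
  have h1 : (pcc j).2.1 = l := by rw [hlc]
  have h2 : (pcc j).2.2 = c := by rw [hlc]
  have h3 : X.bk k j ⊆ R'.1 := hn0 j ((le_max_left _ _).trans hj) (by rw [h1]; exact hRS)
  have h4 : X.bk k j ⊆ X.sC c := fun x hx => ⟨k, j, hx, h2⟩
  refine (hn1 j ((le_max_right _ _).trans hj) hlc hRS h3 h4).subset ?_
  intro x hx
  exact ⟨hx.1, fun h => hx.2 (Or.inl h)⟩

/-- the case of a set of the form `u ∩ sC c ∩ R'` -/
theorem EPF_aux2 (hLVL : LVL_stmt) (hBIT : BIT_stmt) (X : Cx) (p : ℕ → EStar) (hX : X.Ok) (hp : X.Par p) (k : ℕ)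
    (R' : CES) (n0 : ℕ)
    (hn0 : ∀ j, n0 ≤ (pcc j).1.length → X.B.RS k (pcc j).1 (pcc j).2.1 → X.bk k j ⊆ R'.1)
    (l c : ℕ) (hl : l < X.m) (hal : alT X.m (X.ty k) l c) (x x' : CES) (i : ℕ) (hr : X.rep x x' i) :
    (X.B.lv k l i 2 → Ks p (EStar.mk x ⊓ p (5 + c) ⊓ EStar.mk R') → False) ∧
    (X.B.lv k l i 1 → Ks p (EStar.mk x' ⊓ p (5 + c) ⊓ EStar.mk R') → False) := by
  obtain ⟨hc, hpc⟩ := hp.pc c
  constructor
  · rintro ⟨n1, hn1⟩ hK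
    rw [hpc, mk_inf, mk_inf] at hK
    refine EPF_aux hLVL X p hX hp k R' n0 hn0 l c hl hal _ hK ⟨max n1 (i + 1), ?_⟩
    intro j hj hlc hRS h3 h4
    have h5 : i < (pcc j).1.length := (Nat.lt_succ_self i).trans_le ((le_max_right _ _).trans hj)
    have h6 := (hBIT X hX x x' i hr k j h5).1 (hn1 _ hRS ((le_max_left _ _).trans hj))
    refine h6.subset ?_
    rintro z ⟨hz1, hz2⟩
    exact ⟨hz1, fun h => hz2 ⟨⟨h, h4 hz1⟩, h3 hz1⟩⟩
  · rintro ⟨n1, hn1⟩ hK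
    rw [hpc, mk_inf, mk_inf] at hK
    refine EPF_aux hLVL X p hX hp k R' n0 hn0 l c hl hal _ hK ⟨max n1 (i + 1), ?_⟩
    intro j hj hlc hRS h3 h4
    have h5 : i < (pcc j).1.length := (Nat.lt_succ_self i).trans_le ((le_max_right _ _).trans hj)
    have h6 := (hBIT X hX x x' i hr k j h5).2 (hn1 _ hRS ((le_max_left _ _).trans hj))
    refine h6.subset ?_
    rintro z ⟨hz1, hz2⟩
    exact ⟨hz1, fun h => hz2 ⟨⟨h, h4 hz1⟩, h3 hz1⟩⟩

theorem EPF_row (hJSK : JSK_stmt) (hLIV : LIV_stmt) (hGLU : GLU_stmt) (hLVL : LVL_stmt)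
    (hBIT : BIT_stmt) (hTYL : TYL_stmt) (hPXL : PXL_stmt) (hRPX : RPX_stmt) : EPF_stmt := by
  intro X p hX hp x x' y y' i0 j0 q hr hr' hEC
  have hCi : ∀ k, X.B.C i0 k := (hRPX X p hp x x').2 i0 hr
  have hCj : ∀ k, X.B.C j0 k := (hRPX X p hp y y').2 j0 hr'
  obtain ⟨hpi, s1, hs1⟩ := hPXL X hX i0 hCi
  obtain ⟨hpj, s2, hs2⟩ := hPXL X hX j0 hCj
  obtain ⟨hmono, hlsN, hty1, -⟩ := hTYL X hX
  have hFfin : {k | k ≤ X.ls (max s1 s2) ∧ k ∉ X.N}.Finite :=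
    (Set.finite_Iic (X.ls (max s1 s2))).subset fun k hk => hk.1
  obtain ⟨hF, hJ⟩ := hJSK X p hp _ hFfin (fun k hk => hk.2)
  obtain ⟨R'c, hJ', hdis, hnle, hk1, hk2, hk3, hk4, hk5⟩ := hEC _ hJ
  obtain ⟨R', rfl⟩ := mk_surj R'c
  obtain ⟨k, hkN, hkfin⟩ := hLIV X p hX hp R' hJ' hnle
  -- `k` is large
  have hkK : X.ls (max s1 s2) < k := by
    by_contra hle
    have hle' := not_lt.1 hle
    rw [mk_inf, mk_bot] at hdis
    have hinf : ({z | z ∉ X.E} \ {z | z ∉ X.E ∧ Nat.pair k z ∉ R'.1}).Infinite :=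
      hX.ce.diff hkfin
    refine (hinf.image (f := fun z => Nat.pair k z) (EPF_pair_inj k).injOn) (hdis.subset ?_)
    rintro _ ⟨z, ⟨hz1, hz2⟩, rfl⟩
    refine ⟨?_, ?_⟩
    · show (Nat.pair k z).unpair.1 ∈ {k | k ≤ X.ls (max s1 s2) ∧ k ∉ X.N}
      rw [Nat.unpair_pair]
      exact ⟨hle', hkN⟩
    · by_contra h
      exact hz2 ⟨hz1, h⟩
  obtain ⟨n0, hn0⟩ := hGLU X hX R' k hkfin
  -- the type
  obtain ⟨a, b, hty⟩ : ∃ a b, X.ty k = some (q, a, b) := by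
    by_contra hno
    have hm := hX.m0
    have hal : alT X.m (X.ty k) (X.m - 1) (4 + q) := by
      refine Or.inr (Or.inr (Or.inr (Or.inr ⟨by omega, by omega, ?_⟩)))
      rintro ⟨q', a, b⟩ h h2
      have h3 : q' = q := by
        have h4 : 4 + q = 4 + q' := h2
        omega
      rw [h3] at h
      exact hno ⟨a, b, h⟩
    obtain ⟨hc, hpc⟩ := hp.pc (4 + q)
    have e : 9 + q = 5 + (4 + q) := by omega
    rw [e, hpc, mk_inf] at hk1
    refine EPF_aux hLVL X p hX hp k R' n0 hn0 (X.m - 1) (4 + q) (by omega) hal _ hk1 ⟨0, ?_⟩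
    intro j _ hlc hRS h3 h4
    refine Set.finite_empty.subset ?_
    rintro z ⟨hz1, hz2⟩
    exact hz2 ⟨h4 hz1, h3 hz1⟩
  obtain ⟨hT, s, hs⟩ := hty1 k _ hty
  have hs0 : max s1 s2 < s := by
    rw [← hs] at hkK
    exact hmono.lt_iff_lt.1 hkK
  obtain ⟨ha, hb⟩ := hX.Tm _ hT
  have ha' : a < X.m := ha
  have hb' : b < X.m := hb
  have hv1 : ∀ l < X.m, (X.B.lv (X.ls s) l i0 1 ∨ X.B.lv (X.ls s) l i0 2) ∧
      (l < X.pix i0 → X.B.lv (X.ls s) l i0 1) ∧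
      (l = X.pix i0 → l + 1 < X.m → X.B.lv (X.ls s) l i0 2) := hs1 s ((le_max_left _ _).trans hs0.le)
  have hv2 : ∀ l < X.m, (X.B.lv (X.ls s) l j0 1 ∨ X.B.lv (X.ls s) l j0 2) ∧
      (l < X.pix j0 → X.B.lv (X.ls s) l j0 1) ∧
      (l = X.pix j0 → l + 1 < X.m → X.B.lv (X.ls s) l j0 2) := hs2 s ((le_max_right _ _).trans hs0.le)
  rw [hs] at hv1 hv2
  have e1 : X.pix i0 = a := by
    rcases lt_trichotomy (X.pix i0) a with h | h | h
    · exfalso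
      have hal : alT X.m (X.ty k) (X.pix i0) 1 := Or.inr (Or.inl ⟨rfl, (q, a, b), hty, h⟩)
      have h2 := (hv1 (X.pix i0) hpi).2.2 rfl (by omega)
      exact (EPF_aux2 hLVL hBIT X p hX hp k R' n0 hn0 _ 1 hpi hal x x' i0 hr).1 h2 hk3
    · exact h
    · exfalso
      have hal : alT X.m (X.ty k) a 0 := Or.inl ⟨rfl, by omega, (q, a, b), hty, rfl⟩
      have h2 := (hv1 a ha').2.1 h
      exact (EPF_aux2 hLVL hBIT X p hX hp k R' n0 hn0 _ 0 ha' hal x x' i0 hr).2 h2 hk2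
  have e2 : X.pix j0 = b := by
    rcases lt_trichotomy (X.pix j0) b with h | h | h
    · exfalso
      have hal : alT X.m (X.ty k) (X.pix j0) 3 :=
        Or.inr (Or.inr (Or.inr (Or.inl ⟨rfl, (q, a, b), hty, h⟩)))
      have h2 := (hv2 (X.pix j0) hpj).2.2 rfl (by omega)
      exact (EPF_aux2 hLVL hBIT X p hX hp k R' n0 hn0 _ 3 hpj hal y y' j0 hr').1 h2 hk5
    · exact h
    · exfalso
      have hal : alT X.m (X.ty k) b 2 := Or.inr (Or.inr (Or.inl ⟨rfl, by omega, (q, a, b), hty, rfl⟩))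
      have h2 := (hv2 b hb').2.1 h
      exact (EPF_aux2 hLVL hBIT X p hX hp k R' n0 hn0 _ 2 hb' hal y y' j0 hr').2 h2 hk4
  rw [e1, e2]
  exact hT

end

end S5
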