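import Pool.Agent.helper96.S5.SpecV

/-! # Row s5:KEY (MP_0b485e_lc): the key property of `E*` -/

set_option autoImplicit false

namespace S5

open PF

noncomputable section

open Classical

/-- the list of the types -/
def KEY_S (m R : ℕ) (ρ : ℕ → Fin m → Fin m → Prop) : Finset (ℕ × ℕ × ℕ) :=
  ((Finset.range (2 * R)) ×ˢ (Finset.range m) ×ˢ (Finset.range m)).filter fun a =>
    ∃ (h1 : a.2.1 < m) (h2 : a.2.2 < m),
      (a.1 % 2 = 0 → ρ (a.1 / 2) ⟨a.2.1, h1⟩ ⟨a.2.2, h2⟩) ∧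
        (a.1 % 2 = 1 → ¬ ρ (a.1 / 2) ⟨a.2.1, h1⟩ ⟨a.2.2, h2⟩)

theorem KEY_mem (m R : ℕ) (ρ : ℕ → Fin m → Fin m → Prop) (q : ℕ) (i j : Fin m) :
    (q, (i : ℕ), (j : ℕ)) ∈ KEY_S m R ρ ↔ q < 2 * R ∧ (q % 2 = 0 → ρ (q / 2) i j) ∧
      (q % 2 = 1 → ¬ ρ (q / 2) i j) := by
  unfold KEY_S
  rw [Finset.mem_filter, Finset.mem_product, Finset.mem_product, Finset.mem_range, Finset.mem_range,
    Finset.mem_range]
  constructor
  · rintro ⟨⟨h1, _, _⟩, _, _, h2, h3⟩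
    exact ⟨h1, h2, h3⟩
  · rintro ⟨h1, h2, h3⟩
    exact ⟨⟨h1, i.2, j.2⟩, i.2, j.2, h2, h3⟩

theorem KEY_row (hCTX : CTX_stmt) (hPAX : PAX_stmt) (hRPX : RPX_stmt) (hPXL : PXL_stmt)
    (hSRJ : SRJ_stmt) (hEPF : EPF_stmt) (hEPB : EPB_stmt) : KEY_stmt := by
  intro m R ρ hm hR
  have hne : (KEY_S m R ρ).toList ≠ [] := by
    intro h
    have hemp : KEY_S m R ρ = ∅ := Finset.toList_eq_nil.1 h
    by_cases h0 : ρ 0 ⟨0, hm⟩ ⟨0, hm⟩
    · have : (0, ((⟨0, hm⟩ : Fin m) : ℕ), ((⟨0, hm⟩ : Fin m) : ℕ)) ∈ KEY_S m R ρ :=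
        (KEY_mem m R ρ 0 _ _).2 ⟨by omega, fun _ => h0, fun h => absurd h (by norm_num)⟩
      rw [hemp] at this
      exact absurd this (Finset.notMem_empty _)
    · have : (1, ((⟨0, hm⟩ : Fin m) : ℕ), ((⟨0, hm⟩ : Fin m) : ℕ)) ∈ KEY_S m R ρ :=
        (KEY_mem m R ρ 1 _ _).2 ⟨by omega, fun h => absurd h (by norm_num), fun _ => h0⟩
      rw [hemp] at this
      exact absurd this (Finset.notMem_empty _)
  have hTm : ∀ a ∈ (KEY_S m R ρ).toList, a.2.1 < m ∧ a.2.2 < m := by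
    intro a ha
    rw [Finset.mem_toList, KEY_S, Finset.mem_filter] at ha
    obtain ⟨_, h1, h2, _⟩ := ha
    exact ⟨h1, h2⟩
  obtain ⟨X, hX, hXm, hXT⟩ := hCTX m _ hm hne hTm
  obtain ⟨p, hp⟩ := hPAX X hX
  have hch : ∀ x : {x : EStar × EStar // Dm p x.1 x.2}, ∃ (A A' : CES) (i : ℕ),
      EStar.mk A = x.1.1 ∧ EStar.mk A' = x.1.2 ∧ X.rep A A' i := by
    rintro ⟨⟨u, v⟩, h⟩
    obtain ⟨A, rfl⟩ := mk_surj u
    obtain ⟨A', rfl⟩ := mk_surj v
    obtain ⟨i, hi⟩ := (hRPX X p hp A A').1 h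
    exact ⟨A, A', i, rfl, rfl, hi⟩
  choose A A' i hA hA' hi using hch
  have hpix : ∀ x, X.pix (i x) < m := by
    intro x
    have h1 : ∀ k, X.B.C (i x) k := (hRPX X p hp (A x) (A' x)).2 (i x) (hi x)
    rw [← hXm]
    exact (hPXL X hX (i x) h1).1
  refine ⟨p, fun x => ⟨X.pix (i x), hpix x⟩, ?_, ?_⟩
  · -- surjectivity
    intro j
    obtain ⟨B, B', hD, hB⟩ := hSRJ X p hX hp j (by rw [hXm]; exact j.2)
    refine ⟨⟨(EStar.mk B, EStar.mk B'), hD⟩, ?_⟩
    apply Fin.ext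
    refine hB _ ?_
    set x : {x : EStar × EStar // Dm p x.1 x.2} := ⟨(EStar.mk B, EStar.mk B'), hD⟩ with hx
    have e1 : EStar.mk (A x) = EStar.mk B := hA x
    have e2 : EStar.mk (A' x) = EStar.mk B' := hA' x
    obtain ⟨a, a', h1, h2, h3, h4⟩ := hi x
    rw [mk_eq'] at e1 e2
    refine ⟨a, a', h1, h2, ?_, ?_⟩
    · refine ((e1.2.union e1.1).union h3).subset ?_
      exact symmDiff_triangle B.1 (A x).1 {z | We a z}
    · refine ((e2.2.union e2.1).union h4).subset ?_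
      exact symmDiff_triangle B'.1 (A' x).1 {z | We a' z}
  · intro r hr x y
    have key : ∀ q, EC p (9 + q) x.1.1 x.1.2 y.1.1 y.1.2 ↔
        (q, X.pix (i x), X.pix (i y)) ∈ KEY_S m R ρ := by
      intro q
      rw [← Finset.mem_toList, ← hXT, ← hA x, ← hA' x, ← hA y, ← hA' y]
      constructor
      · intro h
        exact hEPF X p hX hp _ _ _ _ _ _ q (hi x) (hi y) h
      · intro h
        have h1 : Dm p (EStar.mk (A x)) (EStar.mk (A' x)) := by
          rw [hA x, hA' x]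
          exact x.2
        have h2 : Dm p (EStar.mk (A y)) (EStar.mk (A' y)) := by
          rw [hA y, hA' y]
          exact y.2
        exact hEPB X p hX hp _ _ _ _ _ _ q h1 h2 (hi x) (hi y) h
    have hmem := KEY_mem m R ρ
    constructor
    · rw [key (2 * r)]
      have := hmem (2 * r) ⟨X.pix (i x), hpix x⟩ ⟨X.pix (i y), hpix y⟩
      simp only at this
      rw [this]
      have e1 : 2 * r % 2 = 0 := by omega
      have e2 : 2 * r / 2 = r := by omega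
      rw [e2]
      constructor
      · rintro ⟨_, h, _⟩
        exact h e1
      · intro h
        exact ⟨by omega, fun _ => h, fun h' => absurd h' (by omega)⟩
    · have e : 10 + 2 * r = 9 + (2 * r + 1) := by omega
      rw [e, key (2 * r + 1)]
      have := hmem (2 * r + 1) ⟨X.pix (i x), hpix x⟩ ⟨X.pix (i y), hpix y⟩
      simp only at this
      rw [this]
      have e1 : (2 * r + 1) % 2 = 1 := by omega
      have e2 : (2 * r + 1) / 2 = r := by omega
      rw [e2]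
      constructor
      · rintro ⟨_, _, h⟩
        exact h e1
      · intro h
        exact ⟨by omega, fun h' => absurd h' (by omega), fun _ => h⟩

end

end S5
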