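import Pool.Agent.helper96.S5.SpecM
import Pool.Agent.helper40.TP.MIC
import Pool.Agent.helper84.TP.SUP
import Pool.Agent.helper89.TP.SIM
import Pool.Agent.helper74.TP.DTM
import Pool.Agent.helper72.TP.ENJ
import Pool.Agent.helper78.TP.CNM
import Pool.Agent.helper45.TP.MCH

/-! # Row s5:MC2 (MP_0b485e_lc): affine machines with two results -/

set_option autoImplicit false

namespace S5

open PF Relation Function Turing Turing.PartrecToTM2 Pool.Agent.TP

noncomputable section

theorem MC2_dg (v : Option Γ') : dg v < 5 := by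
  rcases v with _ | g
  · simp [dg]
  · cases g <;> simp [dg]

/-- the constants are less than the moduli -/
theorem MC2_alt (ν : Sm → ℕ) (B : ℕ) (q : Sm) (v o : Option Γ') (hq : ν q < B) (j : Fin 5) :
    (insOf ν B q v o).a j < (insOf ν B q v o).P j := by
  by_cases hj : j = 0
  · subst hj
    have h := MC2_dg v
    simp only [insOf, if_true]
    omega
  · simp only [insOf, if_neg hj]
    have h := MC2_dg o
    cases q <;> simp only [sop] <;> (try split_ifs) <;> omega

theorem MC2_halt (w : List ℕ) : PartrecToTM2.halt w =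
    (⟨none, none, K'.elim (trList w) [] [] []⟩ : Cfg') := rfl

theorem MC2_row : MC2_stmt := by
  classical
  intro c
  obtain ⟨Q, hQf, hQ0, hQh, hQc⟩ := SUP c
  have hfin : Finite Q := hQf
  let eQ := Finite.equivFin Q
  let B := Nat.card Q
  let ν : Sm → ℕ := fun q => if h : q ∈ Q then (eQ ⟨q, h⟩ : ℕ) else 0
  have hν : ∀ q ∈ Q, ν q < B := by
    intro q hq
    simp only [ν, dif_pos hq]
    exact (eQ ⟨q, hq⟩).2
  have hνi : ∀ q ∈ Q, ∀ q' ∈ Q, ν q = ν q' → q = q' := by
    intro q hq q' hq' h
    simp only [ν, dif_pos hq, dif_pos hq'] at h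
    have := eQ.injective (Fin.ext h)
    exact congrArg Subtype.val this
  have hB : 0 < B := (Nat.zero_le _).trans_lt (hν _ hQh)
  let I : Type := {q : Q // q.1 ≠ (TM2.Stmt.halt : Sm)} × Option Γ' × Option Γ'
  let eI := Finite.equivFin I
  let prog : Fin (Nat.card I) → Ins (Fin 5) := fun i =>
    insOf ν B (eI.symm i).1.1.1 (eI.symm i).2.1 (eI.symm i).2.2
  let Z : List ℕ → MC := fun w => (TM2.Stmt.halt, none, K'.elim (trList w) [] [] [])
  let X0 : ℕ → MC := fun e => (tr (trNormal c Cont'.halt), none, K'.elim (trList [e]) [] [] [])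
  -- determinism
  have hdet : ∀ x y y', Stp prog x y → Stp prog x y' → y = y' := by
    rintro x y y' ⟨i, n, h1, h2⟩ ⟨i', n', h1', h2'⟩
    have h := DTM ν B (eI.symm i).1.1.1 (eI.symm i').1.1.1 (eI.symm i).2.1 (eI.symm i').2.1
      (eI.symm i).2.2 (eI.symm i').2.2 n n' (hν _ (eI.symm i).1.1.2) (hν _ (eI.symm i').1.1.2)
      (hνi _ (eI.symm i).1.1.2 _ (eI.symm i').1.1.2) (h1.symm.trans h1')
    rw [h2, h2']
    exact h.2.2
  -- final configurations are terminal
  have hter : ∀ v S y, ¬ Stp prog (enc ν (TM2.Stmt.halt, v, S)) y := by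
    rintro v S y ⟨i, n, h1, h2⟩
    rw [MCH_halt ν B v S] at h1
    have h := DTM ν B TM2.Stmt.halt (eI.symm i).1.1.1 v (eI.symm i).2.1
      none (eI.symm i).2.2 _ n (hν _ hQh) (hν _ (eI.symm i).1.1.2)
      (hνi _ hQh _ (eI.symm i).1.1.2) h1
    exact (eI.symm i).1.2 h.1.symm
  -- the machine
  let A : AM := ⟨Nat.card I, fun i => (prog i).P, fun i => (prog i).a, fun i => (prog i).q,
    fun i => (prog i).c⟩
  have hcast : ∀ x y : Fin 5 → ℕ, A.stp x y → Stp prog (cz x) (cz y) := by
    rintro x y ⟨i, n, h1, h2⟩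
    refine ⟨i, fun j => (n j : ℤ), ?_, ?_⟩
    · funext j
      have h := h1 j
      change x j = (prog i).P j * n j + (prog i).a j at h
      simp only [cz, Ins.l]
      rw [h]
      push_cast
      ring
    · funext j
      have h := h2 j
      change y j = (prog i).q j * n j + (prog i).c j at h
      simp only [cz, Ins.r]
      rw [h]
      push_cast
      ring
  have hcz : ∀ x y : Fin 5 → ℕ, cz x = cz y → x = y := by
    intro x y h
    funext j
    have := congrFun h j
    simpa [cz] using this
  -- simulation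
  have hsim : ∀ C C' : MC, C.1 ∈ Q → mic C = some C' → A.stp (MCH_enc ν C) (MCH_enc ν C') := by
    rintro ⟨q, v, S⟩ C' hq hm
    have hne : q ≠ TM2.Stmt.halt := by
      rintro rfl
      simp [mic] at hm
    obtain ⟨o, n, h1, h2⟩ := SIM ν B q v S C' hm
    let t : I := (⟨⟨q, hq⟩, hne⟩, v, o)
    have ha := MC2_alt ν B q v o (hν q hq)
    rw [← MCH_cz] at h1 h2
    have hn : ∀ j, 0 ≤ n j := by
      intro j
      by_contra hneg
      have h := congrFun h1 j
      simp only [cz, Ins.l] at h
      have haj : ((insOf ν B q v o).a j : ℤ) < ((insOf ν B q v o).P j : ℤ) := by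
        exact_mod_cast ha j
      have hP : (0 : ℤ) ≤ ((insOf ν B q v o).P j : ℤ) := by positivity
      have hx : (0 : ℤ) ≤ (MCH_enc ν (q, v, S) j : ℤ) := by positivity
      have hle : n j ≤ -1 := by omega
      nlinarith
    refine ⟨eI t, fun j => (n j).toNat, ?_, ?_⟩
    · intro j
      have h := congrFun h1 j
      simp only [cz, Ins.l] at h
      have e1 : A.P (eI t) j = (insOf ν B q v o).P j := by
        simp only [A, prog, Equiv.symm_apply_apply, t]
      have e2 : A.a (eI t) j = (insOf ν B q v o).a j := by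
        simp only [A, prog, Equiv.symm_apply_apply, t]
      rw [e1, e2]
      have : ((MCH_enc ν (q, v, S) j : ℕ) : ℤ) =
          (((insOf ν B q v o).P j * (n j).toNat + (insOf ν B q v o).a j : ℕ) : ℤ) := by
        push_cast
        rw [Int.toNat_of_nonneg (hn j), h]
      exact_mod_cast this
    · intro j
      have h := congrFun h2 j
      simp only [cz, Ins.r] at h
      have e1 : A.q (eI t) j = (insOf ν B q v o).q j := by
        simp only [A, prog, Equiv.symm_apply_apply, t]
      have e2 : A.c (eI t) j = (insOf ν B q v o).c j := by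
        simp only [A, prog, Equiv.symm_apply_apply, t]
      rw [e1, e2]
      have : ((MCH_enc ν C' j : ℕ) : ℤ) =
          (((insOf ν B q v o).q j * (n j).toNat + (insOf ν B q v o).c j : ℕ) : ℤ) := by
        push_cast
        rw [Int.toNat_of_nonneg (hn j), h]
      exact_mod_cast this
  have hrun : ∀ (e : ℕ) (w : List ℕ), w ∈ c.eval [e] →
      ReflTransGen A.stp (MCH_enc ν (X0 e)) (MCH_enc ν (Z w)) := by
    intro e w hw
    have h1 : PartrecToTM2.halt w ∈ StateTransition.eval (TM2.step tr) (PartrecToTM2.init c [e]) := by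
      rw [PartrecToTM2.tr_eval]
      exact (Part.mem_map_iff _).2 ⟨w, hw, rfl⟩
    have h2 := (StateTransition.mem_eval.1 h1).1
    have hM := MIC (trNormal c Cont'.halt) none (K'.elim (trList [e]) [] [] []) none
      (K'.elim (trList w) [] [] [])
    have hinit : (PartrecToTM2.init c [e]) =
      ⟨some (trNormal c Cont'.halt), none, K'.elim (trList [e]) [] [] []⟩ := rfl
    rw [hinit, MC2_halt] at h2
    have h3 := hM.1 h2
    have key : ∀ D : MC, StateTransition.Reaches mic (X0 e) D →
        ReflTransGen A.stp (MCH_enc ν (X0 e)) (MCH_enc ν D) ∧ D.1 ∈ Q := by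
      intro D hD
      induction hD with
      | refl => exact ⟨ReflTransGen.refl, hQ0⟩
      | tail _ hbc ih =>
        exact ⟨ih.1.tail (hsim _ _ ih.2 hbc), hQc _ ih.2 _ _ _ hbc⟩
    exact (key _ h3).1
  refine ⟨A, MCH_enc ν (Z [0]), MCH_enc ν (Z [1]), fun e => MCH_enc ν (X0 e), ⟨?_, ?_, ?_, ?_, ?_⟩,
    ?_, fun e he => hrun e _ he, fun e he => hrun e _ he⟩
  · intro i j
    exact MCH_pos ν B hB _ _ _ j
  · intro x y y' h h'
    exact hcz _ _ (hdet _ _ _ (hcast _ _ h) (hcast _ _ h'))
  · intro y h
    have h' := hcast _ _ h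
    rw [MCH_cz] at h'
    exact hter _ _ _ h'
  · intro y h
    have h' := hcast _ _ h
    rw [MCH_cz] at h'
    exact hter _ _ _ h'
  · intro h
    have h' := congrArg cz h
    rw [MCH_cz, MCH_cz] at h'
    have h2 := ENJ ν (Z [0]) (Z [1]) (fun _ => rfl) h'
    have h3 : K'.elim (trList [0]) [] [] [] K'.main = K'.elim (trList [1]) [] [] [] K'.main := by
      have := congrArg (fun C : MC => C.2.2 K'.main) h2
      exact this
    have h4 : trList [0] = trList [1] := h3
    revert h4
    decide
  · intro j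
    fin_cases j
    · exact (Computable.const (MCH_enc ν (X0 0) 0) : Computable fun _ : ℕ => MCH_enc ν (X0 0) 0)
    · exact CNM
    · exact (Computable.const 0 : Computable fun _ : ℕ => (0 : ℕ))
    · exact (Computable.const 0 : Computable fun _ : ℕ => (0 : ℕ))
    · exact (Computable.const 0 : Computable fun _ : ℕ => (0 : ℕ))

end

end S5
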