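import Pool.Agent.helper96.S5.SpecM

/-! # Row s5:MGR (MP_0b485e_lc): the atoms are computable -/

set_option autoImplicit false

namespace S5

open PF Relation

noncomputable section

theorem MGR_sm5 (x0 : ℕ → Fin 5 → ℕ) (h : ∀ j, Computable fun e => x0 e j) :
    Computable fun e => sm5 (x0 e) := by
  have hadd : ∀ f g : ℕ → ℕ, Computable f → Computable g → Computable fun e => f e + g e := by
    intro f g hf hg
    exact Primrec.nat_add.to_comp.comp hf hg
  exact hadd _ _ (hadd _ _ (hadd _ _ (hadd _ _ (h 0) (h 1)) (h 2)) (h 3)) (h 4)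

theorem MGR_chn : Primrec fun k : ℕ => chn 0 k := by
  unfold chn
  refine Primrec.list_map Primrec.list_range ?_
  refine Primrec.pair (Primrec.const 0) (Primrec.pair ?_ ?_)
  · exact Primrec.nat_add.comp (Primrec.const 0) Primrec.snd
  · exact Primrec.succ.comp (Primrec.nat_add.comp (Primrec.const 0) Primrec.snd)

theorem MGR_row : MGR_stmt := by
  intro x0 h
  refine ⟨?_, MGR_sm5 x0 h⟩
  have hs := MGR_sm5 x0 h
  have h1 : Computable fun e => chn 0 (sm5 (x0 e)) := MGR_chn.to_comp.comp hs
  have hat : ∀ (r : ℕ) (j : Fin 5), Computable fun e => ((r, 0, x0 e j) : At) := by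
    intro r j
    exact (Computable.const r).pair ((Computable.const 0).pair (h j))
  have h2 : Computable fun e => ([(2, 0, x0 e 0), (3, 0, x0 e 1), (4, 0, x0 e 2), (5, 0, x0 e 3),
      (6, 0, x0 e 4)] : List At) := by
    refine Computable.list_cons.comp (hat 2 0) ?_
    refine Computable.list_cons.comp (hat 3 1) ?_
    refine Computable.list_cons.comp (hat 4 2) ?_
    refine Computable.list_cons.comp (hat 5 3) ?_
    exact Computable.list_cons.comp (hat 6 4) (Computable.const [])
  have h3 : Computable fun e => (((1, 0, 0) : At) :: (chn 0 (sm5 (x0 e)) ++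
      ([(2, 0, x0 e 0), (3, 0, x0 e 1), (4, 0, x0 e 2), (5, 0, x0 e 3),
      (6, 0, x0 e 4)] : List At))) := by
    refine Computable.list_cons.comp (Computable.const _) ?_
    exact Computable.list_append.comp h1 h2
  refine h3.of_eq fun e => ?_
  simp only [grd]
  congr 2

end

end S5
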