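import Pool.Agent.helper96.S5.SpecM

/-! # Row s5:WFT (MP_0b485e_lc): bounds for the relation symbols and the constants -/

set_option autoImplicit false

namespace S5

open PF Relation

noncomputable section

theorem WFT_chn (b k : ℕ) (a : At) (ha : a ∈ chn b k) : a.1 = 0 ∧ a.2.1 ≤ b + k ∧ a.2.2 ≤ b + k := by
  simp only [chn, List.mem_map, List.mem_range] at ha
  obtain ⟨i, hi, rfl⟩ := ha
  refine ⟨rfl, ?_, ?_⟩
  · show b + i ≤ b + k
    omega
  · show b + i + 1 ≤ b + k
    omega

theorem WFT_gru (R G P a : ℕ) (hR : 2 ≤ R) (hG : G < R) (h : HR) (hh : h ∈ gru G P a) : HOk R h := by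
  simp only [gru, List.mem_cons, List.not_mem_nil, or_false] at hh
  rcases hh with rfl | rfl
  · constructor
    · intro x hx
      rcases List.mem_cons.1 hx with rfl | hx
      · show 1 < R
        omega
      · rw [(WFT_chn _ _ _ hx).1]
        omega
    · intro x hx
      obtain rfl := Option.some.inj hx
      exact hG
  · constructor
    · intro x hx
      rcases List.mem_cons.1 hx with rfl | hx
      · exact hG
      · rcases List.mem_cons.1 hx with rfl | hx
        · show 0 < R
          omega
        · rw [(WFT_chn _ _ _ hx).1]
          omega
    · intro x hx
      obtain rfl := Option.some.inj hx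
      exact hG

theorem WFT_row : WFT_stmt := by
  intro A z1
  have hm : ∀ (i : Fin A.m) (j : ℕ), j < 5 → mL i j < nrl A ∧ mR i j < nrl A := by
    intro i j hj
    have := i.2
    simp only [mL, mR, nrl]
    omega
  have h2 : 7 ≤ nrl A := by
    simp only [nrl]
    omega
  refine ⟨?_, ?_⟩
  · intro h hh
    simp only [thy] at hh
    rcases List.mem_append.1 hh with hh | hh
    · obtain ⟨i, -, hh⟩ := List.mem_flatMap.1 hh
      obtain ⟨j, -, hh⟩ := List.mem_flatMap.1 hh
      rcases List.mem_append.1 hh with hh | hh
      · exact WFT_gru _ _ _ _ (by omega) (hm i j j.2).1 h hh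
      · rcases List.mem_append.1 hh with hh | hh
        · exact WFT_gru _ _ _ _ (by omega) (hm i j j.2).2 h hh
        · obtain rfl := List.mem_singleton.1 hh
          constructor
          · intro x hx
            simp only [sbd] at hx
            rcases List.mem_cons.1 hx with rfl | hx
            · show 0 < nrl A
              omega
            · obtain ⟨j', hj', hx⟩ := List.mem_flatMap.1 hx
              have hj'' := List.mem_range.1 hj'
              simp only [List.mem_cons, List.not_mem_nil, or_false] at hx
              rcases hx with rfl | rfl | rfl
              · show 2 + j' < nrl A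
                omega
              · exact (hm i j' hj'').1
              · exact (hm i j' hj'').2
          · intro x hx
            obtain rfl := Option.some.inj hx
            show 2 + (j : ℕ) < nrl A
            have := j.2
            omega
    · obtain rfl := List.mem_singleton.1 hh
      constructor
      · intro x hx
        rcases List.mem_cons.1 hx with rfl | hx
        · show 1 < nrl A
          omega
        · rcases List.mem_append.1 hx with hx | hx
          · rw [(WFT_chn _ _ _ hx).1]
            omega
          · obtain ⟨j, -, rfl⟩ := List.mem_map.1 hx
            show 2 + (j : ℕ) < nrl A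
            have := j.2
            omega
      · intro x hx
        exact absurd hx (by simp)
  · intro x a ha
    simp only [grd] at ha
    rcases List.mem_cons.1 ha with rfl | ha
    · refine ⟨?_, Nat.zero_le _, Nat.zero_le _⟩
      show 1 < nrl A
      omega
    · rcases List.mem_append.1 ha with ha | ha
      · obtain ⟨h1, h3, h4⟩ := WFT_chn _ _ _ ha
        refine ⟨by omega, by omega, by omega⟩
      · obtain ⟨j, -, rfl⟩ := List.mem_map.1 ha
        refine ⟨?_, Nat.zero_le _, ?_⟩
        · show 2 + (j : ℕ) < nrl A
          have := j.2
          omega
        · show x j ≤ sm5 x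
          simp only [sm5]
          fin_cases j <;> simp <;> omega

end

end S5
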